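import Pool.Agent.Helper6.NX.GoalsC
import Pool.Agent.Helper61.GP.ENT

/-! # NX-BCD: the moments of the long walk -/

set_option autoImplicit false

namespace Pool.Agent.Helper76.NX.BCD

open Pool.Agent.Helper6.NX Equiv Filter Topology Pool.Agent.Helper15.An
open Pool.Agent.Helper3.AK (lazyLaw)

theorem ev_log (c β : ℝ) (hc : 0 < c) (hβ : 0 < β) :
    ∀ᶠ n : ℕ in atTop, Real.log n ≤ c * (n : ℝ) ^ β := by
  have h := (isLittleO_log_rpow_atTop hβ).bound hc
  have h2 := tendsto_natCast_atTop_atTop (R := ℝ) |>.eventually h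
  filter_upwards [h2] with n hn
  have h3 : 0 ≤ (n : ℝ) ^ β := Real.rpow_nonneg (Nat.cast_nonneg n) _
  rw [Real.norm_eq_abs, Real.norm_eq_abs, abs_of_nonneg h3] at hn
  exact (le_abs_self _).trans hn

theorem thmBCD (hb : S_B) (hc : S_C) (hd : S_D) (hmom0 : S_MOM0) : S_BCD := by
  obtain ⟨τ₁, c₀, γ₀, hτ, hτ1, hc0, hc01, hγ0, hγ01, hB⟩ := hb
  have hlog8 : 2 < Real.log (8 / c₀) := by
    have h1 : (8 : ℝ) ≤ 8 / c₀ := by
      rw [le_div_iff₀ hc0]; nlinarith
    have h2 : Real.log 8 ≤ Real.log (8 / c₀) := Real.log_le_log (by norm_num) h1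
    have h3 : Real.log 8 = 3 * Real.log 2 := by
      rw [show (8 : ℝ) = 2 ^ 3 by norm_num, Real.log_pow]; norm_num
    have h4 := Real.log_two_gt_d9
    linarith
  have hξ : 0 < 3 * c₀ / (64 * Real.log (8 / c₀)) := by positivity
  have hξ4 : 3 * c₀ / (64 * Real.log (8 / c₀)) ≤ 1 / 4 := by
    rw [div_le_iff₀ (by positivity)]
    nlinarith
  set ξ := 3 * c₀ / (64 * Real.log (8 / c₀)) with hξdef
  refine ⟨τ₁, ξ, min γ₀ (1 / 2), hτ, hτ1, hξ, hξ4, lt_min hγ0 (by norm_num),
    (min_le_right _ _).trans_lt (by norm_num), ?_⟩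
  intro k γ γ' α ε hk hγ hγle hγ' hγ'4 hε hε1 hα hα1 hα2 hα3
  have hγB : γ ≤ γ₀ := hγle.trans (min_le_left _ _)
  have hγ1 : γ < 1 := (hγle.trans (min_le_right _ _)).trans_lt (by norm_num)
  have e1 := hB k γ α ε hk hγ hγB hε hε1 hα hα1 hα2 hα3
  have e2 := hc k γ γ' α ε c₀ hk hγ hγ' hγ1 hγ'4 hε hε1 hα hα1 hc0 hc01
  have hkpos : (0 : ℝ) < k := by exact_mod_cast hk
  have e3 := ev_log (1 / (16 * k * ξ)) γ' (by positivity) hγ'
  have e4 := ev_log ε (1 - α) hε (by linarith)
  filter_upwards [e1, e2, e3, e4, eventually_ge_atTop 2] with n h1 h2 h3 h4 hn2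
  intro x hgap hss
  have hn1 : (1 : ℝ) < n := by exact_mod_cast (by omega : 1 < n)
  have hnpos : (0 : ℝ) < n := by linarith
  have hlogpos : 0 < Real.log n := Real.log_pos hn1
  have hle := h1 x hgap hss
  set T := ⌈(n : ℝ) ^ (1 + 2 * γ + 5 * γ')⌉₊ with hT
  have hTle : (n : ℝ) ^ (1 + 2 * γ + 5 * γ') ≤ T := Nat.le_ceil _
  constructor
  · intro f hfn hfl
    have hfpos : (0 : ℝ) < f := (Real.rpow_pos_of_pos hnpos _).trans_le hfl
    have hfn' : (f : ℝ) ≤ n := by exact_mod_cast hfn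
    have hΛ : 0 < ξ * f * Real.log n := by positivity
    have hε' : 0 < (n : ℝ) ^ (-(γ + 2 * γ')) := Real.rpow_pos_of_pos hnpos _
    have hε'1 : (n : ℝ) ^ (-(γ + 2 * γ')) ≤ 1 :=
      Real.rpow_le_one_of_one_le_of_nonpos hn1.le (by linarith)
    have hcost : 16 * k * (ξ * f * Real.log n) ≤ ((n : ℝ) ^ (-(γ + 2 * γ'))) ^ 2 * T := by
      have h5 : ((n : ℝ) ^ (-(γ + 2 * γ'))) ^ 2 * (n : ℝ) ^ (1 + 2 * γ + 5 * γ') =
          n * (n : ℝ) ^ γ' := by
        rw [← Real.rpow_natCast ((n : ℝ) ^ (-(γ + 2 * γ'))) 2, ← Real.rpow_mul hnpos.le,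
          ← Real.rpow_add hnpos]
        nth_rewrite 2 [← Real.rpow_one (n : ℝ)]
        rw [← Real.rpow_add hnpos]
        congr 1
        push_cast
        ring
      have h6 : 16 * k * ξ * Real.log n ≤ (n : ℝ) ^ γ' := by
        have h7 : 0 < 16 * (k : ℝ) * ξ := by positivity
        calc 16 * k * ξ * Real.log n ≤ 16 * k * ξ * (1 / (16 * k * ξ) * (n : ℝ) ^ γ') :=
              mul_le_mul_of_nonneg_left h3 h7.le
          _ = (n : ℝ) ^ γ' := by field_simp
      calc 16 * k * (ξ * f * Real.log n) = f * (16 * k * ξ * Real.log n) := by ring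
        _ ≤ n * (n : ℝ) ^ γ' := mul_le_mul hfn' h6 (by positivity) hnpos.le
        _ = ((n : ℝ) ^ (-(γ + 2 * γ'))) ^ 2 * (n : ℝ) ^ (1 + 2 * γ + 5 * γ') := h5.symm
        _ ≤ _ := mul_le_mul_of_nonneg_left hTle (by positivity)
    have hD := hd n k f T x ((n : ℝ) ^ (-(γ + 2 * γ'))) (ξ * f * Real.log n) hk hε' hε'1 hΛ
      (fun q hq hN => h2 x hgap hle f hfn hfl q hq hN) hcost
    rw [hmom0]
    have hcard : Fintype.card (Fin f ↪ Fin n) = n.descFactorial f := by
      rw [Fintype.card_embedding_eq, Fintype.card_fin, Fintype.card_fin]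
    calc ∑ a : Fin f ↪ Fin n, prT (lazyLaw x (2 * T)) a a
        ≤ ∑ a : Fin f ↪ Fin n, Real.exp (-(ξ * f * Real.log n)) :=
          Finset.sum_le_sum fun a _ => hD a
      _ = (n.descFactorial f : ℝ) * Real.exp (-(ξ * f * Real.log n)) := by
          rw [Finset.sum_const, Finset.card_univ, hcard, nsmul_eq_mul]
      _ ≤ (n : ℝ) ^ f * Real.exp (-(ξ * f * Real.log n)) := by
          refine mul_le_mul_of_nonneg_right ?_ (Real.exp_pos _).le
          exact_mod_cast Nat.descFactorial_le_pow n f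
      _ = (n : ℝ) ^ ((1 - ξ) * f) := by
          rw [← Real.rpow_natCast (n : ℝ) f, Real.rpow_def_of_pos hnpos, Real.rpow_def_of_pos hnpos,
            ← Real.exp_add]
          congr 1; ring
  · intro j hj a b
    have hjn : (j : ℝ) ≤ n := hj.trans (by
      calc (n : ℝ) ^ α ≤ (n : ℝ) ^ (1 : ℝ) := Real.rpow_le_rpow_of_exponent_le hn1.le hα1.le
        _ = n := Real.rpow_one _)
    have hjn' : j ≤ n := by exact_mod_cast hjn
    have hE := Pool.Agent.Helper61.GP.thm n k j (2 * T) x ε hk hjn' hε hε1 (hgap j hj) a b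
    have hpos : (0 : ℝ) < n.descFactorial j := by
      exact_mod_cast Nat.descFactorial_pos.mpr hjn'
    have hTn : (n : ℝ) ≤ T := by
      refine le_trans ?_ hTle
      calc (n : ℝ) = (n : ℝ) ^ (1 : ℝ) := (Real.rpow_one _).symm
        _ ≤ _ := Real.rpow_le_rpow_of_exponent_le hn1.le (by linarith)
    have hsmall : (1 - ε / 2) ^ (2 * T) ≤ 1 / (n.descFactorial j : ℝ) := by
      have h5 : 0 ≤ 1 - ε / 2 := by linarith
      have h6 : 1 - ε / 2 ≤ Real.exp (-(ε / 2)) := by
        have := Real.add_one_le_exp (-(ε / 2)); linarith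
      have h7 : (n.descFactorial j : ℝ) ≤ Real.exp (ε * n) := by
        calc (n.descFactorial j : ℝ) ≤ (n : ℝ) ^ j := by
              exact_mod_cast Nat.descFactorial_le_pow n j
          _ = Real.exp (Real.log n * j) := by
              rw [← Real.rpow_natCast, Real.rpow_def_of_pos hnpos]
          _ ≤ Real.exp (ε * n) := by
              refine Real.exp_le_exp.2 ?_
              calc Real.log n * j ≤ (ε * (n : ℝ) ^ (1 - α)) * (n : ℝ) ^ α :=
                    mul_le_mul h4 hj (Nat.cast_nonneg _) (by positivity)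
                _ = ε * ((n : ℝ) ^ (1 - α) * (n : ℝ) ^ α) := by ring
                _ = ε * n := by
                    rw [← Real.rpow_add hnpos]; simp
      calc (1 - ε / 2) ^ (2 * T) ≤ Real.exp (-(ε / 2)) ^ (2 * T) := pow_le_pow_left₀ h5 h6 _
        _ = Real.exp (-(ε * T)) := by
            rw [← Real.exp_nat_mul]; congr 1; push_cast; ring
        _ ≤ Real.exp (-(ε * n)) := by
            refine Real.exp_le_exp.2 ?_
            have := mul_le_mul_of_nonneg_left hTn hε.le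
            linarith
        _ = 1 / Real.exp (ε * n) := by rw [Real.exp_neg, one_div]
        _ ≤ 1 / (n.descFactorial j : ℝ) := one_div_le_one_div_of_le hpos h7
    have h8 := (abs_le.1 hE).2
    unfold prT
    have h9 : (2 : ℝ) / (n.descFactorial j : ℝ) = 1 / (n.descFactorial j : ℝ) +
        1 / (n.descFactorial j : ℝ) := by ring
    rw [h9]
    linarith

end Pool.Agent.Helper76.NX.BCD
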