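import Pool.Agent.Helper6.NX.GoalsD

/-! # NX-E2: after two more steps all moments are exponentially bounded -/

set_option autoImplicit false

namespace Pool.Agent.Helper76.NX.E2

open Pool.Agent.Helper6.NX Equiv Pool.Agent.Helper15.An

theorem sum_sq {n : ℕ} (κ : Perm (Fin n) → ℝ) (φ ψ : Perm (Fin n) → ℝ) :
    ∑ g, ∑ h, κ g * κ h * (φ g * ψ h) = (∑ g, κ g * φ g) * (∑ h, κ h * ψ h) := by
  rw [Finset.sum_mul_sum]
  refine Finset.sum_congr rfl fun g _ => Finset.sum_congr rfl fun h _ => ?_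
  ring

/-- the number of colours -/
theorem xs (s : ℕ) (hs : 1 ≤ s) : s ≤ ⌈√(s : ℝ)⌉₊ ^ 2 ∧ ⌈√(s : ℝ)⌉₊ ^ 2 ≤ 4 * s ∧
    (⌈√(s : ℝ)⌉₊ : ℝ) ≤ 2 * √(s : ℝ) := by
  have hs1 : (1 : ℝ) ≤ s := by exact_mod_cast hs
  have h1 : √(s : ℝ) ≤ ⌈√(s : ℝ)⌉₊ := Nat.le_ceil _
  have h2 : (⌈√(s : ℝ)⌉₊ : ℝ) < √(s : ℝ) + 1 := Nat.ceil_lt_add_one (Real.sqrt_nonneg _)
  have h3 : (1 : ℝ) ≤ √(s : ℝ) := Real.one_le_sqrt.2 hs1
  have h4 : √(s : ℝ) ^ 2 = s := Real.sq_sqrt (by linarith)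
  have h5 : (⌈√(s : ℝ)⌉₊ : ℝ) ≤ 2 * √(s : ℝ) := by linarith
  refine ⟨?_, ?_, h5⟩
  · have : (s : ℝ) ≤ (⌈√(s : ℝ)⌉₊ : ℝ) ^ 2 := by nlinarith
    exact_mod_cast this
  · have : (⌈√(s : ℝ)⌉₊ : ℝ) ^ 2 ≤ 4 * s := by
      have : (0 : ℝ) ≤ ⌈√(s : ℝ)⌉₊ := Nat.cast_nonneg _
      nlinarith
    exact_mod_cast this

theorem tbound (n s : ℕ) (hs : 1 ≤ s) (hsn : s ≤ n) :
    √((⌈√(s : ℝ)⌉₊ : ℝ) * s / n) ≤ 2 * (n : ℝ) ^ (1 / 4 : ℝ) ∧
    √((⌈√(s : ℝ)⌉₊ : ℝ) * s / n) ≤ 2 * s := by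
  have hs1 : (1 : ℝ) ≤ s := by exact_mod_cast hs
  have hsn1 : (s : ℝ) ≤ n := by exact_mod_cast hsn
  have hn : (0 : ℝ) < n := by linarith
  obtain ⟨-, -, h5⟩ := xs s hs
  have h3 : (1 : ℝ) ≤ √(s : ℝ) := Real.one_le_sqrt.2 hs1
  have h4 : √(s : ℝ) ^ 2 = s := Real.sq_sqrt (by linarith)
  have h6 : (⌈√(s : ℝ)⌉₊ : ℝ) * s / n ≤ 2 * √(s : ℝ) := by
    rw [div_le_iff₀ hn]
    calc (⌈√(s : ℝ)⌉₊ : ℝ) * s ≤ (2 * √(s : ℝ)) * n :=
          mul_le_mul h5 hsn1 (by linarith) (by linarith)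
      _ = _ := rfl
  constructor
  · rw [Real.sqrt_le_left (by positivity)]
    have h7 : (2 * (n : ℝ) ^ (1 / 4 : ℝ)) ^ 2 = 4 * √(n : ℝ) := by
      rw [mul_pow, ← Real.rpow_natCast ((n : ℝ) ^ (1 / 4 : ℝ)) 2, ← Real.rpow_mul hn.le,
        Real.sqrt_eq_rpow]
      norm_num
    rw [h7]
    have h8 : √(s : ℝ) ≤ √(n : ℝ) := Real.sqrt_le_sqrt hsn1
    linarith
  · rw [Real.sqrt_le_left (by positivity)]
    nlinarith

theorem colA (hmx : S_MX) (hkey : S_KEY) (hmomt : S_MOMT) (n f₀ : ℕ) (κ : Perm (Fin n) → ℝ)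
    (hn : 1 ≤ n) (hκ : IsLaw κ) (hf0 : 12 * (n : ℝ) ^ (19 / 20 : ℝ) ≤ f₀)
    (h1 : ∀ j : ℕ, j < f₀ → mom κ j ≤ 2)
    (h2 : ∀ j : ℕ, f₀ ≤ j → j ≤ n → mom κ j ≤ (n : ℝ) ^ ((7 / 10 : ℝ) * j))
    (s : ℕ) (hs : 1 ≤ s) (hsn : s ≤ n) :
    ∑ V, mixc κ κ V * colc ⌈√(s : ℝ)⌉₊ s V ≤ 9 * Real.exp (16 * s) := by
  obtain ⟨hx1, hx2, hx3⟩ := xs s hs
  obtain ⟨ht1, ht2⟩ := tbound n s hs hsn
  set x := ⌈√(s : ℝ)⌉₊ with hx
  set t := √((x : ℝ) * s / n) with ht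
  have ht0 : 0 ≤ t := Real.sqrt_nonneg _
  rw [(hmx n κ κ hκ hκ).2.2.2.2]
  have hm := hmomt n f₀ κ t hn hκ hf0 ht0 ht1 h1 h2
  have hm0 : 0 ≤ ∑ g, κ g * (1 + t) ^ (fixc g) :=
    Finset.sum_nonneg fun g _ => mul_nonneg (hκ.1 g) (by positivity)
  calc ∑ g, ∑ h, κ g * κ h * ((n.factorial : ℝ)⁻¹ * ∑ y : Perm (Fin n), colc x s (g * (y * h * y⁻¹)))
      ≤ ∑ g, ∑ h, κ g * κ h * ((Real.exp (12 * s) * (1 + t) ^ (fixc g)) * (1 + t) ^ (fixc h)) := by
        refine Finset.sum_le_sum fun g _ => Finset.sum_le_sum fun h _ => ?_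
        refine mul_le_mul_of_nonneg_left ?_ (mul_nonneg (hκ.1 g) (hκ.1 h))
        refine (hkey n x s g h hs hsn hx2).trans (le_of_eq ?_)
        rw [pow_add]; ring
    _ = (∑ g, κ g * (Real.exp (12 * s) * (1 + t) ^ (fixc g))) * (∑ h, κ h * (1 + t) ^ (fixc h)) :=
        sum_sq κ _ _
    _ = Real.exp (12 * s) * (∑ g, κ g * (1 + t) ^ (fixc g)) ^ 2 := by
        have : ∑ g, κ g * (Real.exp (12 * s) * (1 + t) ^ (fixc g)) =
            Real.exp (12 * s) * ∑ g, κ g * (1 + t) ^ (fixc g) := by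
          rw [Finset.mul_sum]
          exact Finset.sum_congr rfl fun g _ => by ring
        rw [this]; ring
    _ ≤ Real.exp (12 * s) * (3 * Real.exp (2 * s)) ^ 2 := by
        refine mul_le_mul_of_nonneg_left ?_ (Real.exp_pos _).le
        refine pow_le_pow_left₀ hm0 (hm.trans ?_) 2
        exact mul_le_mul_of_nonneg_left (Real.exp_le_exp.2 ht2) (by norm_num)
    _ = 9 * Real.exp (16 * s) := by
        rw [mul_pow, ← Real.exp_nat_mul]
        have : Real.exp (16 * s) = Real.exp (12 * s) * Real.exp ((2 : ℕ) * (2 * (s : ℝ))) := by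
          rw [← Real.exp_add]; congr 1; push_cast; ring
        rw [this]; ring

theorem colc_zero {n : ℕ} (V : Perm (Fin n)) : colc 0 0 V ≤ 1 := by
  unfold colc
  have : ((Finset.univ.filter fun χ : Fin n → Fin (0 + 1) =>
    (∀ p, χ (V p) = χ p) ∧ (Finset.univ.filter fun p => χ p ≠ 0).card = 0).card) ≤ 1 := by
    refine (Finset.card_filter_le _ _).trans ?_
    rw [Finset.card_univ]
    simp
  exact_mod_cast this

theorem colc_nonneg {n : ℕ} (x s : ℕ) (V : Perm (Fin n)) : 0 ≤ colc x s V := by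
  unfold colc; positivity

theorem II_nonneg {n : ℕ} (s : ℕ) (V V' : Perm (Fin n)) : 0 ≤ II s V V' := by
  unfold II; positivity

theorem final_num (f : ℕ) (hf : 1 ≤ f) :
    Real.exp (2 * f) * (1 + f * (81 * Real.exp (32 * f))) ≤ Real.exp (40 * f) := by
  have hf1 : (1 : ℝ) ≤ f := by exact_mod_cast hf
  have h0 : Real.exp (40 * f) = Real.exp (2 * f) * (Real.exp (32 * f) * Real.exp (6 * f)) := by
    rw [← Real.exp_add, ← Real.exp_add]; congr 1; ring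
  rw [h0]
  refine mul_le_mul_of_nonneg_left ?_ (Real.exp_pos _).le
  have h1 : (1 : ℝ) ≤ Real.exp (32 * f) := Real.one_le_exp (by positivity)
  have h2 : 82 * (f : ℝ) ≤ Real.exp (6 * f) := by
    have h3 : (387 : ℝ) ≤ Real.exp 6 := by
      have h4 : (2.7 : ℝ) ≤ Real.exp 1 := by
        have := Real.exp_one_gt_d9; linarith
      have h5 : Real.exp 6 = Real.exp 1 ^ 6 := by
        rw [← Real.exp_nat_mul]; norm_num
      rw [h5]
      calc (387 : ℝ) ≤ 2.7 ^ 6 := by norm_num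
        _ ≤ _ := pow_le_pow_left₀ (by norm_num) h4 6
    have h6 : Real.exp (6 * f) = Real.exp 6 ^ f := by
      rw [← Real.exp_nat_mul]; congr 1; ring
    rw [h6]
    have h7 := one_add_mul_le_pow (a := (386 : ℝ)) (by norm_num) f
    calc 82 * (f : ℝ) ≤ 1 + (f : ℝ) * 386 := by linarith
      _ ≤ (1 + 386) ^ f := h7
      _ ≤ Real.exp 6 ^ f := pow_le_pow_left₀ (by norm_num) (by linarith) f
  calc 1 + f * (81 * Real.exp (32 * f)) ≤ f * Real.exp (32 * f) + f * (81 * Real.exp (32 * f)) := by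
        have : 1 ≤ f * Real.exp (32 * f) := one_le_mul_of_one_le_of_one_le hf1 h1
        linarith
    _ = Real.exp (32 * f) * (82 * f) := by ring
    _ ≤ _ := mul_le_mul_of_nonneg_left h2 (Real.exp_pos _).le

theorem thmE2 (hmx : S_MX) (hpairb : S_PAIRB) (his2 : S_IS2) (hkey : S_KEY) (hmomt : S_MOMT) :
    S_E2 := by
  intro n f₀ κ hn hκ hf0 h1 h2 f hf hfn
  have hκ2 : IsLaw (mixc κ κ) := (hmx n κ κ hκ hκ).1
  set κ₂ := mixc κ κ with hκ₂
  have hnpos : (0 : ℝ) < n := by exact_mod_cast hn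
  have hfn1 : (f : ℝ) ≤ n := by exact_mod_cast hfn
  have hfr : (f : ℝ) / n ≤ 1 := (div_le_one hnpos).2 hfn1
  have hfr0 : 0 ≤ (f : ℝ) / n := by positivity
  unfold mom
  rw [(hmx n κ₂ κ₂ hκ2 hκ2).2.2.2.2]
  have hII : ∀ s ∈ Finset.range (f + 1), 1 ≤ s →
      ∑ V, ∑ V', κ₂ V * κ₂ V' * II s V V' ≤ 81 * Real.exp (32 * f) := by
    intro s hs hs1
    have hsf : s ≤ f := by simpa using Nat.lt_succ_iff.1 (Finset.mem_range.1 hs)
    obtain ⟨hx1, hx2, hx3⟩ := xs s hs1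
    have hA := colA hmx hkey hmomt n f₀ κ hn hκ hf0 h1 h2 s hs1 (hsf.trans hfn)
    set x := ⌈√(s : ℝ)⌉₊ with hx
    have hA0 : 0 ≤ ∑ V, κ₂ V * colc x s V :=
      Finset.sum_nonneg fun V _ => mul_nonneg (hκ2.1 V) (colc_nonneg _ _ _)
    calc ∑ V, ∑ V', κ₂ V * κ₂ V' * II s V V'
        ≤ ∑ V, ∑ V', κ₂ V * κ₂ V' * (colc x s V * colc x s V') :=
          Finset.sum_le_sum fun V _ => Finset.sum_le_sum fun V' _ =>
            mul_le_mul_of_nonneg_left (his2 n s x V V' hx1) (mul_nonneg (hκ2.1 V) (hκ2.1 V'))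
      _ = (∑ V, κ₂ V * colc x s V) * (∑ V, κ₂ V * colc x s V) := sum_sq κ₂ _ _
      _ ≤ (9 * Real.exp (16 * s)) * (9 * Real.exp (16 * s)) :=
          mul_le_mul hA hA hA0 (by positivity)
      _ = 81 * Real.exp (32 * s) := by
          have : Real.exp (32 * (s : ℝ)) = Real.exp (16 * s) * Real.exp (16 * s) := by
            rw [← Real.exp_add]; congr 1; ring
          rw [this]; ring
      _ ≤ 81 * Real.exp (32 * f) := by
          have : (s : ℝ) ≤ f := by exact_mod_cast hsf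
          refine mul_le_mul_of_nonneg_left (Real.exp_le_exp.2 (by linarith)) (by norm_num)
  have hII0 : ∑ V, ∑ V', κ₂ V * κ₂ V' * II 0 V V' ≤ 1 := by
    calc ∑ V, ∑ V', κ₂ V * κ₂ V' * II 0 V V' ≤ ∑ V, ∑ V', κ₂ V * κ₂ V' * (1 * 1) := by
          refine Finset.sum_le_sum fun V _ => Finset.sum_le_sum fun V' _ =>
            mul_le_mul_of_nonneg_left ?_ (mul_nonneg (hκ2.1 V) (hκ2.1 V'))
          refine (his2 n 0 0 V V' (by norm_num)).trans ?_
          exact mul_le_mul (colc_zero V) (colc_zero V') (colc_nonneg _ _ _) (by norm_num)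
      _ = (∑ V, κ₂ V * 1) * (∑ V', κ₂ V' * 1) := sum_sq κ₂ (fun _ => 1) (fun _ => 1)
      _ = 1 := by simp [hκ2.2]
  calc ∑ V, ∑ V', κ₂ V * κ₂ V' * ((n.factorial : ℝ)⁻¹ *
        ∑ y : Perm (Fin n), ((fixc (V * (y * V' * y⁻¹))).descFactorial f : ℝ))
      ≤ ∑ V, ∑ V', κ₂ V * κ₂ V' * (Real.exp (2 * f) *
          ∑ s ∈ Finset.range (f + 1), ((f : ℝ) / n) ^ s * II s V V') :=
        Finset.sum_le_sum fun V _ => Finset.sum_le_sum fun V' _ =>
          mul_le_mul_of_nonneg_left (hpairb n f V V' hfn) (mul_nonneg (hκ2.1 V) (hκ2.1 V'))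
    _ = Real.exp (2 * f) * ∑ s ∈ Finset.range (f + 1), ((f : ℝ) / n) ^ s *
          ∑ V, ∑ V', κ₂ V * κ₂ V' * II s V V' := by
        have e1 : ∀ V V' : Perm (Fin n), κ₂ V * κ₂ V' * (Real.exp (2 * f) *
            ∑ s ∈ Finset.range (f + 1), ((f : ℝ) / n) ^ s * II s V V') =
            ∑ s ∈ Finset.range (f + 1), Real.exp (2 * f) * (((f : ℝ) / n) ^ s *
              (κ₂ V * κ₂ V' * II s V V')) := by
          intro V V'
          rw [Finset.mul_sum, Finset.mul_sum]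
          exact Finset.sum_congr rfl fun s _ => by ring
        simp_rw [e1]
        rw [Finset.mul_sum]
        have e2 : ∀ V : Perm (Fin n), ∑ V', ∑ s ∈ Finset.range (f + 1), Real.exp (2 * f) *
            (((f : ℝ) / n) ^ s * (κ₂ V * κ₂ V' * II s V V')) =
            ∑ s ∈ Finset.range (f + 1), ∑ V', Real.exp (2 * f) *
            (((f : ℝ) / n) ^ s * (κ₂ V * κ₂ V' * II s V V')) := fun V => Finset.sum_comm
        simp_rw [e2]
        rw [Finset.sum_comm]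
        refine Finset.sum_congr rfl fun s _ => ?_
        simp_rw [Finset.mul_sum]
    _ ≤ Real.exp (2 * f) * (1 + f * (81 * Real.exp (32 * f))) := by
        refine mul_le_mul_of_nonneg_left ?_ (Real.exp_pos _).le
        rw [Finset.sum_range_succ']
        rw [add_comm]
        refine add_le_add ?_ ?_
        · simpa using hII0
        · calc ∑ k ∈ Finset.range f, ((f : ℝ) / n) ^ (k + 1) *
                ∑ V, ∑ V', κ₂ V * κ₂ V' * II (k + 1) V V'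
              ≤ ∑ k ∈ Finset.range f, 81 * Real.exp (32 * f) := by
                refine Finset.sum_le_sum fun k hk => ?_
                have hk' : k + 1 ∈ Finset.range (f + 1) := by
                  rw [Finset.mem_range] at hk ⊢; omega
                have h3 := hII (k + 1) hk' (by omega)
                have h4 : 0 ≤ ∑ V, ∑ V', κ₂ V * κ₂ V' * II (k + 1) V V' :=
                  Finset.sum_nonneg fun V _ => Finset.sum_nonneg fun V' _ =>
                    mul_nonneg (mul_nonneg (hκ2.1 V) (hκ2.1 V')) (II_nonneg _ _ _)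
                calc ((f : ℝ) / n) ^ (k + 1) * ∑ V, ∑ V', κ₂ V * κ₂ V' * II (k + 1) V V'
                    ≤ 1 * ∑ V, ∑ V', κ₂ V * κ₂ V' * II (k + 1) V V' :=
                      mul_le_mul_of_nonneg_right (pow_le_one₀ hfr0 hfr) h4
                  _ = ∑ V, ∑ V', κ₂ V * κ₂ V' * II (k + 1) V V' := one_mul _
                  _ ≤ _ := h3
            _ = f * (81 * Real.exp (32 * f)) := by
                rw [Finset.sum_const, Finset.card_range, nsmul_eq_mul]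
    _ ≤ Real.exp (40 * f) := final_num f hf

end Pool.Agent.Helper76.NX.E2
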